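import Mathlib
import Pool.Graph.R_seed8.W307.RT.Tors
import Pool.Agent.H457.A.DM3

/-!
# Ranks of elliptic curves with full rational 2-torsion ordered by the minimal discriminant

All elliptic curves `E` over `ℚ` with full rational 2-torsion, ordered by the absolute value of the
minimal discriminant: the family has order of magnitude `X ^ (1/3)`, and for every `r` the
proportion of the curves of rank at least `r` is at most `C exp (-c r log r)` for all large `X`,
with absolute constants `C`, `c > 0`.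
-/

set_option autoImplicit false

namespace Pool.Agent.Results.MP_6073f3_nt.DiscriminantTail

open Finset Filter

/-- the curve `y² = x³ + A x + B` over `ℚ` -/
def E (A B : ℤ) : WeierstrassCurve ℚ := ⟨0, 0, 0, (A : ℚ), (B : ℚ)⟩

/-- the absolute value of the minimal discriminant of `y² = x³ + A x + B`: the least absolute
value of the discriminant of a Weierstrass equation `W` with integral coefficients that defines a
curve isomorphic to it over `ℚ` (that is, carried to it by an admissible change of variables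
over `ℚ`) -/
noncomputable def minDisc (A B : ℤ) : ℕ :=
  sInf {n : ℕ | ∃ W : WeierstrassCurve ℤ,
    (∃ C : WeierstrassCurve.VariableChange ℚ, C • W.map (Int.castRingHom ℚ) = E A B) ∧
      W.Δ.natAbs = n}

/-- The pairs `(A, B)` of integers such that `4 A³ + 27 B² ≠ 0`, there is no prime `p` with
`p⁴ ∣ A` and `p⁶ ∣ B`, the curve `y² = x³ + A x + B` has full rational 2-torsion, and its minimal
discriminant is at most `X` in absolute value. (Every elliptic curve over `ℚ` is isomorphic to
`E A B` for exactly one pair with the first two properties.) -/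
def Fam (X : ℕ) : Set (ℤ × ℤ) :=
  {c | 4 * c.1 ^ 3 + 27 * c.2 ^ 2 ≠ 0 ∧
    (∀ p : ℕ, p.Prime → ¬ ((p : ℤ) ^ 4 ∣ c.1 ∧ (p : ℤ) ^ 6 ∣ c.2)) ∧
    (∃ f : ZMod 2 × ZMod 2 →+ (E c.1 c.2).toAffine.Point, Function.Injective f) ∧
    minDisc c.1 c.2 ≤ X}

/-- the members of `Fam X` of rank at least `r` -/
def FamRank (r X : ℕ) : Set (ℤ × ℤ) :=
  {c | c ∈ Fam X ∧ r ≤ Module.finrank ℤ (E c.1 c.2).toAffine.Point}

lemma Fam_eq (X : ℕ) : Fam X = Pool.Agent.H457.A.DF X := by
  ext c
  have h : Pool.Agent.W307.RT.HasT 2 (Pool.Agent.W307.RT.Sh c.1 c.2) ↔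
      ∃ f : ZMod 2 × ZMod 2 →+ (E c.1 c.2).toAffine.Point, Function.Injective f :=
    Pool.Agent.W307.RT.tors_iff
  constructor
  · rintro ⟨h1, h2, h3, h4⟩
    exact ⟨h1, h2, h.2 h3, h4⟩
  · rintro ⟨h1, h2, h3, h4⟩
    exact ⟨h1, h2, h.1 h3, h4⟩

/-- **Theorem.** For every `X` there are only finitely many elliptic curves over `ℚ` with full
rational 2-torsion and minimal discriminant at most `X` in absolute value; their number is between
`c₁ X ^ (1/3)` and `c₂ X ^ (1/3)` for all large `X`; and there are constants `C, c > 0` such that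
for every `r` and all large `X` the number of those of rank at least `r` is at most
`C exp (-c r log r)` times the number of all of them. -/
theorem result : (∀ X, (Fam X).Finite) ∧
    (∃ c₁ c₂ : ℝ, 0 < c₁ ∧ ∀ᶠ X : ℕ in atTop, c₁ * (X : ℝ) ^ (1 / 3 : ℝ) ≤ (Fam X).ncard ∧
      ((Fam X).ncard : ℝ) ≤ c₂ * (X : ℝ) ^ (1 / 3 : ℝ)) ∧
    ∃ C c : ℝ, 0 < C ∧ 0 < c ∧ ∀ r : ℕ, ∀ᶠ X : ℕ in atTop,
      ((FamRank r X).ncard : ℝ) ≤ C * Real.exp (-(c * r * Real.log r)) * (Fam X).ncard := by
  obtain ⟨C, c, c1, c2, hC, hc, hc1, h1, h2⟩ := Pool.Agent.H457.A.disc_tail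
  refine ⟨fun X => ?_, ⟨c1, c2, hc1, ?_⟩, C, c, hC, hc, fun r => ?_⟩
  · rw [Fam_eq]
    exact Pool.Agent.H457.A.DF_finite X
  · simp only [Fam_eq]
    exact h1
  · filter_upwards [h2 r] with X hX
    have e : FamRank r X = Pool.Agent.H457.A.DFR r X := by
      unfold FamRank
      rw [Fam_eq]
      rfl
    rw [mul_assoc c, e, Fam_eq]
    exact hX

end Pool.Agent.Results.MP_6073f3_nt.DiscriminantTail
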